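import Mathlib

/-!
# Steinberg symbols with values in a torsion free ring

`ℓ : Additive Fˣ →+ B` with `ℓ a * ℓ b = 0` whenever `a + b = 1`.
-/

namespace Pool.Agent.Lib.MilnorVan

variable {F : Type*} [Field F] {B : Type*} [Ring B]

/-- A Steinberg symbol map: additive on `Fˣ` and `ℓ a * ℓ b = 0` if `a + b = 1`. -/
structure IsSymb (s : Fˣ → B) : Prop where
  mul : ∀ a b : Fˣ, s (a * b) = s a + s b
  st : ∀ a b : Fˣ, (a : F) + b = 1 → s a * s b = 0
  tf : ∀ (n : ℕ) (x : B), n ≠ 0 → n • x = 0 → x = 0

namespace IsSymb

variable {s : Fˣ → B} (h : IsSymb s)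

include h

theorem one : s 1 = 0 := by
  have := h.mul 1 1
  rw [mul_one] at this
  exact left_eq_add.mp this

theorem inv (a : Fˣ) : s a⁻¹ = - s a := by
  have := h.mul a a⁻¹
  rw [mul_inv_cancel, h.one] at this
  exact (neg_eq_of_add_eq_zero_right this.symm).symm

theorem div (a b : Fˣ) : s (a / b) = s a - s b := by
  rw [div_eq_mul_inv, h.mul, h.inv, sub_eq_add_neg]

theorem pow (a : Fˣ) (n : ℕ) : s (a ^ n) = n • s a := by
  induction n with
  | zero => simp [h.one]
  | succ n ih => rw [pow_succ, h.mul, ih, succ_nsmul]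

theorem neg_one : s (-1) = 0 := by
  apply h.tf 2 _ two_ne_zero
  rw [← h.pow, neg_one_sq, h.one]

theorem neg (a : Fˣ) : s (-a) = s a := by
  rw [← neg_one_mul, h.mul, h.neg_one, zero_add]

theorem sq (a : Fˣ) : s a * s a = 0 := by
  by_cases ha : a = 1
  · rw [ha, h.one, mul_zero]
  · have hb0 : (1 : F) - a ≠ 0 := by
      intro h0
      exact ha (Units.ext (sub_eq_zero.mp h0).symm)
    have hc0 : (1 : F) - (a⁻¹ : Fˣ) ≠ 0 := by
      intro h0
      apply ha
      have : (a⁻¹ : Fˣ) = 1 := Units.ext (sub_eq_zero.mp h0).symm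
      rwa [inv_eq_one] at this
    have e : -a = Units.mk0 _ hb0 / Units.mk0 _ hc0 := by
      rw [eq_div_iff_mul_eq']
      apply Units.ext
      simp only [Units.val_mul, Units.val_mk0, Units.val_neg]
      have : (a : F) * ((a⁻¹ : Fˣ) : F) = 1 := by simp
      linear_combination this
    have h1 : s a * s (Units.mk0 _ hb0) = 0 := h.st _ _ (by simp)
    have h2 : s a⁻¹ * s (Units.mk0 _ hc0) = 0 := h.st _ _ (by simp)
    rw [h.inv, neg_mul, neg_eq_zero] at h2
    have : s a * s (-a) = 0 := by
      rw [e, h.div, mul_sub, h1, h2, sub_zero]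
    rwa [h.neg] at this

theorem anti (a b : Fˣ) : s a * s b = - (s b * s a) := by
  have h1 := h.sq (a * b)
  rw [h.mul, mul_add, add_mul, add_mul, h.sq, h.sq] at h1
  simp only [zero_add, add_zero] at h1
  exact (neg_eq_of_add_eq_zero_right h1).symm

theorem sum_one : ∀ (n : ℕ) (xs : List Fˣ), xs.length = n → (xs.map (fun x : Fˣ => (x : F))).sum = 1 →
    (xs.map s).prod = 0 := by
  intro n
  induction n with
  | zero =>
    intro xs hl hs
    rw [List.length_eq_zero_iff] at hl
    subst hl
    simp at hs
  | succ n ih =>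
    intro xs hl hs
    match xs, hl, hs with
    | [x], _, hs =>
      have hx : x = 1 := Units.ext (by simpa using hs)
      simp [hx, h.one]
    | x :: y :: t, hl, hs =>
      simp only [List.map_cons, List.sum_cons] at hs
      simp only [List.map_cons, List.prod_cons]
      rw [← mul_assoc]
      by_cases hxy : (x : F) + y = 0
      · have : y = -x := Units.ext (by
          rw [Units.val_neg]; exact (neg_eq_of_add_eq_zero_right hxy).symm)
        rw [this, h.neg, h.sq, zero_mul]
      · have hprod : ((Units.mk0 _ hxy :: t).map s).prod = 0 := by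
          apply ih
          · simpa using hl
          · simp only [List.map_cons, List.sum_cons, Units.val_mk0]
            rw [add_assoc]; exact hs
        rw [List.map_cons, List.prod_cons] at hprod
        set u := Units.mk0 _ hxy with hu
        have h0 : s (x / u) * s (y / u) = 0 := by
          apply h.st
          rw [Units.val_div_eq_div_val, Units.val_div_eq_div_val, ← add_div]
          exact div_self hxy
        rw [h.div, h.div, sub_mul, mul_sub, mul_sub, h.sq u, sub_zero] at h0
        have h3 : s x * s y = (s x - s y) * s u := by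
          rw [sub_mul]
          have := h.anti u y
          rw [this] at h0
          rw [sub_neg_eq_add] at h0
          have h4 : s x * s y = s x * s u - s y * s u := by
            rw [eq_sub_iff_add_eq]
            have h5 : s x * s y - s x * s u + s y * s u = 0 := h0
            rw [sub_add_eq_add_sub, sub_eq_zero] at h5
            exact h5
          exact h4
        rw [h3, mul_assoc, hprod, mul_zero]

/-- `x = ± y` -/
theorem perm {l l' : List Fˣ} (hp : l.Perm l') :
    (l.map s).prod = (l'.map s).prod ∨ (l.map s).prod = - (l'.map s).prod := by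
  induction hp with
  | nil => exact Or.inl rfl
  | cons a _ ih =>
    simp only [List.map_cons, List.prod_cons]
    rcases ih with ih | ih
    · left; rw [ih]
    · right; rw [ih, mul_neg]
  | swap a b l =>
    simp only [List.map_cons, List.prod_cons]
    right
    rw [← mul_assoc, ← mul_assoc, h.anti b a, neg_mul]
  | trans _ _ ih1 ih2 =>
    rcases ih1 with h1 | h1 <;> rcases ih2 with h2 | h2 <;> rw [h1, h2]
    · left; rfl
    · right; rfl
    · right; rfl
    · left; exact neg_neg _

theorem perm_zero {l l' : List Fˣ} (hp : l.Perm l') (h0 : (l.map s).prod = 0) :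
    (l'.map s).prod = 0 := by
  rcases h.perm hp with h1 | h1
  · rw [← h1, h0]
  · rw [h0] at h1
    exact neg_eq_zero.mp h1.symm

theorem sandwich (y : Fˣ) (l : List Fˣ) : s y * (l.map s).prod * s y = 0 := by
  induction l with
  | nil => simp [h.sq]
  | cons x t ih =>
    rw [List.map_cons, List.prod_cons, ← mul_assoc, h.anti y x, neg_mul, neg_mul, mul_assoc (s x),
      mul_assoc (s x), ih, mul_zero, neg_zero]

theorem div_prod (y : Fˣ) (l : List Fˣ) :
    ((l.map (fun x => x / y)).map s).prod * s y = (l.map s).prod * s y := by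
  induction l with
  | nil => rfl
  | cons x t ih =>
    simp only [List.map_cons, List.prod_cons]
    rw [h.div, mul_assoc, ih, sub_mul, ← mul_assoc (s y), h.sandwich, sub_zero, mul_assoc]

/-- If `x₁ + … + xᵣ + y = 0` then `ℓ x₁ ⋯ ℓ xᵣ ℓ y = 0`. -/
theorem sum_zero (y : Fˣ) (l : List Fˣ) (hs : (l.map (fun x : Fˣ => (x : F))).sum + y = 0) :
    ((l ++ [y]).map s).prod = 0 := by
  have h1 : (((l.map (fun x => x / (-y)))).map s).prod = 0 := by
    apply h.sum_one _ _ rfl
    rw [List.map_map]
    have : (fun x : Fˣ => (x : F)) ∘ (fun x => x / (-y)) = fun x : Fˣ => (x : F) / (-y : Fˣ) := by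
      funext x; simp [Units.val_div_eq_div_val]
    have hdiv : ∀ m : List Fˣ, (m.map (fun x : Fˣ => (x : F) / (-y : Fˣ))).sum =
        (m.map (fun x : Fˣ => (x : F))).sum / (-y : Fˣ) := by
      intro m
      induction m with
      | nil => simp
      | cons a t ih => simp only [List.map_cons, List.sum_cons, ih, add_div]
    rw [this, hdiv]
    rw [Units.val_neg, div_eq_one_iff_eq (neg_ne_zero.mpr y.ne_zero)]
    exact eq_neg_of_add_eq_zero_left hs
  have h2 := h.div_prod (-y) l
  rw [h1, zero_mul, h.neg] at h2
  simp only [List.map_append, List.prod_append, List.map_cons, List.map_nil, List.prod_cons,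
    List.prod_nil, mul_one]
  exact h2.symm

end IsSymb

end Pool.Agent.Lib.MilnorVan
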