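import Mathlib

/-!
# Polynomial growth of powers of a finite dimensional subspace of a field
-/

namespace Pool.Agent.Lib.MilnorVan

open MvPolynomial

variable {k F : Type*} [Field k] [Field F] [Algebra k F]

/-- Spanned by the products `g(monomial with exponents ≤ N) * wⱼ`. -/
def Wsp {s e : ℕ} (g : MvPolynomial (Fin s) k →ₐ[k] F) (w : Fin e → F) (N : ℕ) : Submodule k F :=
  Submodule.span k (Set.range fun q : (Fin s → Fin (N + 1)) × Fin e =>
    g (monomial (Finsupp.equivFunOnFinite.symm fun i => (q.1 i : ℕ)) 1) * w q.2)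

theorem finrank_Wsp_le {s e : ℕ} (g : MvPolynomial (Fin s) k →ₐ[k] F) (w : Fin e → F) (N : ℕ) :
    Module.finrank k (Wsp g w N) ≤ (N + 1) ^ s * e := by
  refine (finrank_range_le_card _).trans ?_
  simp

instance {s e : ℕ} (g : MvPolynomial (Fin s) k →ₐ[k] F) (w : Fin e → F) (N : ℕ) :
    FiniteDimensional k (Wsp g w N) := by
  unfold Wsp
  exact FiniteDimensional.span_of_finite k (Set.finite_range _)

/-- all exponents are at most `N` -/
def Box {s : ℕ} (N : ℕ) (P : MvPolynomial (Fin s) k) : Prop := ∀ v ∈ P.support, ∀ i, v i ≤ N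

theorem box_totalDegree {s : ℕ} (P : MvPolynomial (Fin s) k) : Box P.totalDegree P := by
  classical
  intro v hv i
  have h1 : v i ≤ v.sum fun _ e => e := by
    by_cases hi : i ∈ v.support
    · exact Finset.single_le_sum (f := fun i => v i) (fun _ _ => Nat.zero_le _) hi
    · rw [Finsupp.notMem_support_iff.mp hi]; exact Nat.zero_le _
  exact h1.trans (le_totalDegree hv)

theorem Box.mono {s : ℕ} {N N' : ℕ} (h : N ≤ N') {P : MvPolynomial (Fin s) k} (hP : Box N P) :
    Box N' P := fun v hv i => (hP v hv i).trans h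

theorem Box.mul {s : ℕ} {N N' : ℕ} {P Q : MvPolynomial (Fin s) k} (hP : Box N P) (hQ : Box N' Q) :
    Box (N + N') (P * Q) := by
  classical
  intro v hv i
  have := support_mul P Q hv
  rw [Finset.mem_add] at this
  obtain ⟨a, ha, b, hb, rfl⟩ := this
  rw [Finsupp.add_apply]
  exact Nat.add_le_add (hP a ha i) (hQ b hb i)

theorem box_monomial {s : ℕ} {N : ℕ} (q : Fin s → Fin (N + 1)) :
    Box N (monomial (Finsupp.equivFunOnFinite.symm fun i => (q i : ℕ)) (1 : k)) := by
  classical
  intro v hv i
  rw [support_monomial] at hv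
  split at hv
  · simp at hv
  · rw [Finset.mem_singleton] at hv
    subst hv
    simp only [Finsupp.equivFunOnFinite_symm_apply_apply]
    have := (q i).2
    omega

theorem mem_Wsp {s e : ℕ} (g : MvPolynomial (Fin s) k →ₐ[k] F) (w : Fin e → F) (N : ℕ)
    (P : MvPolynomial (Fin s) k) (hP : Box N P) (j : Fin e) :
    g P * w j ∈ Wsp g w N := by
  rw [P.as_sum, map_sum, Finset.sum_mul]
  apply Submodule.sum_mem
  intro v hv
  have hle : ∀ i, v i < N + 1 := fun i => Nat.lt_succ_of_le (hP v hv i)
  have h3 : monomial v (coeff v P) = (coeff v P) • monomial v (1 : k) := by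
    rw [smul_monomial, smul_eq_mul, mul_one]
  rw [h3, map_smul, smul_mul_assoc]
  apply Submodule.smul_mem
  apply Submodule.subset_span
  refine ⟨(fun i => ⟨v i, hle i⟩, j), ?_⟩
  simp only
  congr 4
  ext i
  simp

theorem exists_growth (V : Submodule k F) (hV : V.FG) (d : ℕ) (hd : Algebra.trdeg k F ≤ d) :
    ∃ C : ℕ, ∀ m : ℕ, Module.finrank k ↥(V ^ m) ≤ C * (m + 1) ^ d ∧
      FiniteDimensional k ↥(V ^ m) := by
  classical
  obtain ⟨S, hS⟩ := hV
  set A := Algebra.adjoin k (S : Set F) with hA
  have hAft : Algebra.FiniteType k A := by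
    rw [← Subalgebra.fg_iff_finiteType]
    exact ⟨S, rfl⟩
  obtain ⟨s, g, hginj, hgfin⟩ := exists_finite_inj_algHom_of_fg k A
  -- generators of `A` over the polynomial ring
  obtain ⟨e, w, hw⟩ : ∃ (e : ℕ) (w : Fin e → A), ∀ a : A, ∃ c : Fin e → MvPolynomial (Fin s) k,
      a = ∑ j, g (c j) * w j := by
    let _ := g.toRingHom.toAlgebra
    have hfin : Module.Finite (MvPolynomial (Fin s) k) A := hgfin
    obtain ⟨e, w, hw⟩ := Module.Finite.exists_fin (R := MvPolynomial (Fin s) k) (M := A)
    refine ⟨e, w, fun a => ?_⟩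
    have ha : a ∈ Submodule.span (MvPolynomial (Fin s) k) (Set.range w) := by rw [hw]; trivial
    rw [Submodule.mem_span_range_iff_exists_fun] at ha
    obtain ⟨c, hc⟩ := ha
    refine ⟨c, ?_⟩
    rw [← hc]
    apply Finset.sum_congr rfl
    intro j _
    rw [Algebra.smul_def]
    rfl
  choose c hc using hw
  -- bound for the exponents
  have hSA : ∀ v : S, (v : F) ∈ A := fun v => Algebra.subset_adjoin v.2
  let a : S → Fin e → Fin e → MvPolynomial (Fin s) k := fun v j => c (⟨v, hSA v⟩ * w j)
  let u : Fin e → MvPolynomial (Fin s) k := c 1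
  obtain ⟨M, hMa, hMu⟩ : ∃ M : ℕ, (∀ v j l, Box M (a v j l)) ∧ (∀ l, Box M (u l)) := by
    refine ⟨(Finset.univ.sup fun q : S × Fin e × Fin e => (a q.1 q.2.1 q.2.2).totalDegree) ⊔
      (Finset.univ.sup fun l => (u l).totalDegree), ?_, ?_⟩
    · intro v j l
      apply (box_totalDegree (a v j l)).mono
      refine le_trans ?_ le_sup_left
      exact Finset.le_sup (f := fun q : S × Fin e × Fin e => (a q.1 q.2.1 q.2.2).totalDegree)
        (Finset.mem_univ (v, j, l))
    · intro l
      apply (box_totalDegree (u l)).mono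
      refine le_trans ?_ le_sup_right
      exact Finset.le_sup (f := fun l => (u l).totalDegree) (Finset.mem_univ l)
  let g' : MvPolynomial (Fin s) k →ₐ[k] F := A.val.comp g
  let w' : Fin e → F := fun j => (w j : F)
  have hg'inj : Function.Injective g' := Subtype.val_injective.comp hginj
  have hstep : ∀ N, V * Wsp g' w' N ≤ Wsp g' w' (N + M) := by
    intro N
    rw [← hS, Wsp, Submodule.span_mul_span, Submodule.span_le]
    rintro _ ⟨v, hv, _, ⟨q, rfl⟩, rfl⟩
    simp only
    have h1 : (v : F) * w' q.2 = ∑ l, g' (a ⟨v, hv⟩ q.2 l) * w' l := by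
      have := congrArg (Subtype.val) (hc (⟨v, hSA ⟨v, hv⟩⟩ * w q.2))
      push_cast at this
      exact this
    have h2 : v * (g' (monomial (Finsupp.equivFunOnFinite.symm fun i => (q.1 i : ℕ)) 1) * w' q.2)
        = ∑ l, g' (monomial (Finsupp.equivFunOnFinite.symm fun i => (q.1 i : ℕ)) 1 *
          a ⟨v, hv⟩ q.2 l) * w' l := by
      rw [mul_left_comm, h1, Finset.mul_sum]
      apply Finset.sum_congr rfl
      intro l _
      rw [map_mul, mul_assoc]
    rw [SetLike.mem_coe, h2]
    apply Submodule.sum_mem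
    intro l _
    exact mem_Wsp g' w' _ _ ((box_monomial q.1).mul (hMa _ _ _)) l
  have hle : ∀ m : ℕ, V ^ m ≤ Wsp g' w' (M * (m + 1)) := by
    intro m
    induction m with
    | zero =>
      rw [pow_zero, Submodule.one_le]
      have h1 : (1 : F) = ∑ l, g' (u l) * w' l := by
        have := congrArg (Subtype.val) (hc 1)
        push_cast at this
        exact this
      rw [h1]
      apply Submodule.sum_mem
      intro l _
      apply mem_Wsp
      simpa using hMu l
    | succ m ih =>
      rw [pow_succ']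
      refine (mul_le_mul' le_rfl ih).trans ?_
      have h1 : M * (m + 1 + 1) = M * (m + 1) + M := by ring
      rw [h1]
      exact hstep _
  have hsd : s ≤ d := by
    have hind : AlgebraicIndependent k (fun i : Fin s => g' (X i)) := by
      have : (aeval fun i : Fin s => g' (X i)) = g' := by
        apply MvPolynomial.algHom_ext
        intro i
        rw [aeval_X]
      rw [AlgebraicIndependent, this]
      exact hg'inj
    have h1 := hind.lift_cardinalMk_le_trdeg
    rw [Cardinal.mk_fin, Cardinal.lift_natCast] at h1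
    have h2 : Cardinal.lift.{0} (Algebra.trdeg k F) ≤ Cardinal.lift.{0} (d : Cardinal) :=
      Cardinal.lift_le.mpr hd
    rw [Cardinal.lift_natCast] at h2
    exact_mod_cast h1.trans h2
  refine ⟨(M + 1) ^ s * e, fun m => ⟨?_, ?_⟩⟩
  · refine (Submodule.finrank_mono (hle m)).trans ((finrank_Wsp_le _ _ _).trans ?_)
    have h1 : M * (m + 1) + 1 ≤ (M + 1) * (m + 1) := by nlinarith
    calc (M * (m + 1) + 1) ^ s * e ≤ ((M + 1) * (m + 1)) ^ s * e :=
          Nat.mul_le_mul_right _ (Nat.pow_le_pow_left h1 s)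
      _ = (M + 1) ^ s * e * (m + 1) ^ s := by rw [mul_pow]; ring
      _ ≤ (M + 1) ^ s * e * (m + 1) ^ d :=
          Nat.mul_le_mul_left _ (Nat.pow_le_pow_right (Nat.succ_pos m) hsd)
  · exact Submodule.finiteDimensional_of_le (hle m)

end Pool.Agent.Lib.MilnorVan
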