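import Pool.Agent.Lib.MilnorVan.Symb

/-!
# From a relation `z₀ ^ e + ∑ zᵢ ^ e fᵢ = 0` to a relation between symbols modulo `e`
-/

namespace Pool.Agent.Lib.MilnorVan

variable {F : Type*} [Field F] {B : Type*} [Ring B]

theorem sum_filter_of_zero {ι M : Type*} [AddCommMonoid M] (l : List ι) (p : ι → Bool) (g : ι → M)
    (hg : ∀ i, p i = false → g i = 0) : ((l.filter p).map g).sum = (l.map g).sum := by
  induction l with
  | nil => rfl
  | cons a t ih =>
    cases hp : p a with
    | true => rw [List.filter_cons_of_pos hp, List.map_cons, List.sum_cons, ih, List.map_cons,
        List.sum_cons]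
    | false => rw [List.filter_cons_of_neg (by simp [hp]), ih, List.map_cons, List.sum_cons, hg a hp,
        zero_add]

namespace IsSymb

variable {s : Fˣ → B} (h : IsSymb s)

include h

theorem extend {n : ℕ} (w : Fin n → Fˣ) (l : List (Fin n)) (hl : l.Nodup)
    (h0 : ((l.map w).map s).prod = 0) : (((List.finRange n).map w).map s).prod = 0 := by
  have hp : (l ++ (List.finRange n).filter (fun i => i ∉ l)).Perm (List.finRange n) := by
    rw [List.perm_ext_iff_of_nodup]
    · intro i
      simp only [List.mem_append, List.mem_filter, List.mem_finRange, true_and, decide_eq_true_eq,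
        iff_true]
      exact Classical.em _
    · rw [List.nodup_append]
      refine ⟨hl, (List.nodup_finRange n).filter _, ?_⟩
      intro a ha b hb hab
      rw [List.mem_filter] at hb
      have := hb.2
      simp only [decide_eq_true_eq] at this
      exact this (hab ▸ ha)
    · exact List.nodup_finRange n
  apply h.perm_zero (hp.map w)
  rw [List.map_append, List.map_append, List.prod_append, h0, zero_mul]

theorem key {n e : ℕ} (he : e ≠ 0) (f : Fin n → Fˣ) (z0 : F) (z : Fin n → F)
    (hne : z0 ≠ 0 ∨ ∃ i, z i ≠ 0)
    (hrel : z0 ^ e + ∑ i, z i ^ e * f i = 0) (L : AddSubgroup B)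
    (hz0 : ∀ u : Fˣ, (u : F) = z0 → s u ∈ L) (hz : ∀ i (u : Fˣ), (u : F) = z i → s u ∈ L) :
    ∃ c : Fin n → B, (∀ i, c i ∈ L) ∧
      ((List.finRange n).map (fun i => s (f i) + e • c i)).prod = 0 := by
  classical
  by_cases h0 : z0 = 0
  · -- the case `z0 = 0`
    obtain ⟨j, hj⟩ : ∃ i, z i ≠ 0 := by
      rcases hne with h1 | h1
      · exact absurd h0 h1
      · exact h1
    let w : Fin n → Fˣ := fun i => if hi : z i ≠ 0 then (Units.mk0 (z i) hi) ^ e * f i else f i
    let c : Fin n → B := fun i => if hi : z i ≠ 0 then s (Units.mk0 (z i) hi) else 0
    have hw : ∀ i, s (w i) = s (f i) + e • c i := by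
      intro i
      by_cases hi : z i ≠ 0
      · simp only [w, c, dif_pos hi]
        rw [h.mul, h.pow, add_comm]
      · simp only [w, c, dif_neg hi, nsmul_zero, add_zero]
    refine ⟨c, ?_, ?_⟩
    · intro i
      by_cases hi : z i ≠ 0
      · simp only [c, dif_pos hi]
        exact hz i _ rfl
      · simp only [c, dif_neg hi]
        exact L.zero_mem
    · have hfin : (((List.finRange n).map w).map s).prod = 0 := by
        let p : Fin n → Bool := fun i => decide (z i ≠ 0 ∧ i ≠ j)
        apply h.extend w ((List.finRange n).filter p ++ [j])
        · rw [List.nodup_append]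
          refine ⟨(List.nodup_finRange n).filter _, by simp, ?_⟩
          intro a ha b hb hab
          rw [List.mem_filter] at ha
          have hbj : b = j := by simpa using hb
          simp only [p, decide_eq_true_eq] at ha
          exact ha.2.2 (hab.trans hbj)
        · rw [List.map_append]
          apply h.sum_zero (w j)
          rw [List.map_map]
          set g : Fin n → F := fun i => if i = j then 0 else z i ^ e * f i with hg
          have e1 : (((List.finRange n).filter p).map ((fun x : Fˣ => (x : F)) ∘ w)).sum
              = (((List.finRange n).filter p).map g).sum := by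
            congr 1
            apply List.map_congr_left
            intro i hi
            rw [List.mem_filter] at hi
            simp only [p, decide_eq_true_eq] at hi
            obtain ⟨_, hi1, hi2⟩ := hi
            simp only [Function.comp, w, dif_pos hi1, hg, if_neg hi2]
            simp
          rw [e1, sum_filter_of_zero, ← Fin.sum_univ_def]
          · have hwj : ((w j : Fˣ) : F) = z j ^ e * f j := by
              simp only [w, dif_pos hj]; simp
            rw [hwj]
            rw [h0, zero_pow he, zero_add] at hrel
            rw [← hrel, ← Finset.sum_erase_add _ _ (Finset.mem_univ j)]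
            congr 1
            rw [← Finset.sum_erase_add _ _ (Finset.mem_univ j)]
            simp only [hg, if_true, add_zero]
            congr 1
            apply Finset.sum_congr rfl
            intro i hi
            rw [if_neg (Finset.ne_of_mem_erase hi)]
          · intro i hi
            simp only [p, decide_eq_false_iff_not, not_and_or, not_not] at hi
            simp only [hg]
            rcases hi with hi | hi
            · simp [hi, he]
            · simp [hi]
      rw [← hfin, List.map_map]
      congr 1
      apply List.map_congr_left
      intro i _
      exact (hw i).symm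
  · -- the case `z0 ≠ 0`
    set u0 := Units.mk0 z0 h0 with hu0
    let w : Fin n → Fˣ := fun i =>
      if hi : z i ≠ 0 then (Units.mk0 (z i) hi) ^ e * f i / (-(u0 ^ e)) else f i
    let c : Fin n → B := fun i => if hi : z i ≠ 0 then s (Units.mk0 (z i) hi) - s u0 else 0
    have hw : ∀ i, s (w i) = s (f i) + e • c i := by
      intro i
      by_cases hi : z i ≠ 0
      · simp only [w, c, dif_pos hi]
        rw [h.div, h.mul, h.pow, h.neg, h.pow, smul_sub]
        abel
      · simp only [w, c, dif_neg hi, nsmul_zero, add_zero]
    refine ⟨c, ?_, ?_⟩
    · intro i
      by_cases hi : z i ≠ 0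
      · simp only [c, dif_pos hi]
        exact L.sub_mem (hz i _ rfl) (hz0 _ rfl)
      · simp only [c, dif_neg hi]
        exact L.zero_mem
    · have hfin : (((List.finRange n).map w).map s).prod = 0 := by
        let p : Fin n → Bool := fun i => decide (z i ≠ 0)
        apply h.extend w ((List.finRange n).filter p) ((List.nodup_finRange n).filter _)
        apply h.sum_one _ _ rfl
        rw [List.map_map]
        set g : Fin n → F := fun i => z i ^ e * f i / (-(z0 ^ e)) with hg
        have e1 : (((List.finRange n).filter p).map ((fun x : Fˣ => (x : F)) ∘ w)).sum
            = (((List.finRange n).filter p).map g).sum := by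
          congr 1
          apply List.map_congr_left
          intro i hi
          rw [List.mem_filter] at hi
          simp only [p, decide_eq_true_eq] at hi
          simp only [Function.comp, w, dif_pos hi.2, hg]
          rw [Units.val_div_eq_div_val]
          simp [hu0]
        rw [e1, sum_filter_of_zero, ← Fin.sum_univ_def]
        · simp only [hg]
          rw [← Finset.sum_div, div_eq_one_iff_eq (neg_ne_zero.mpr (pow_ne_zero _ h0))]
          exact eq_neg_of_add_eq_zero_right hrel
        · intro i hi
          simp only [p, decide_eq_false_iff_not, not_not] at hi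
          simp [hg, hi, he]
      rw [← hfin, List.map_map]
      congr 1
      apply List.map_congr_left
      intro i _
      exact (hw i).symm

end IsSymb

end Pool.Agent.Lib.MilnorVan
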