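import Mathlib

/-!
# Choosing a good power
-/

namespace Pool.Agent.Lib.MilnorVan

/-- If `D` has polynomial growth of degree `d` and `a * r ^ d < b` then `b * D m > a * D (r * m)`
for some `m ≥ 1`. -/
theorem exists_good (D : ℕ → ℕ) (C d a b r : ℕ) (hr : 1 ≤ r) (ha : 1 ≤ a)
    (hD : ∀ m, D m ≤ C * (m + 1) ^ d)
    (hpos : 1 ≤ D 1) (hab : a * r ^ d < b) : ∃ m, 1 ≤ m ∧ a * D (r * m) < b * D m := by
  by_contra hcon
  push Not at hcon
  have h1 : ∀ t : ℕ, b ^ t ≤ a ^ t * D (r ^ t) := by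
    intro t
    induction t with
    | zero => simpa using hpos
    | succ t ih =>
      have h2 := hcon (r ^ t) (Nat.one_le_pow _ _ hr)
      calc b ^ (t + 1) = b * b ^ t := by ring
        _ ≤ b * (a ^ t * D (r ^ t)) := Nat.mul_le_mul_left _ ih
        _ = a ^ t * (b * D (r ^ t)) := by ring
        _ ≤ a ^ t * (a * D (r * r ^ t)) := Nat.mul_le_mul_left _ h2
        _ = a ^ (t + 1) * D (r ^ (t + 1)) := by rw [pow_succ' r]; ring
  have h3 : ∀ t : ℕ, b ^ t ≤ C * 2 ^ d * (a * r ^ d) ^ t := by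
    intro t
    calc b ^ t ≤ a ^ t * D (r ^ t) := h1 t
      _ ≤ a ^ t * (C * (r ^ t + 1) ^ d) := Nat.mul_le_mul_left _ (hD _)
      _ ≤ a ^ t * (C * (2 * r ^ t) ^ d) := by
          apply Nat.mul_le_mul_left
          apply Nat.mul_le_mul_left
          apply Nat.pow_le_pow_left
          have := Nat.one_le_pow t r hr
          omega
      _ = C * 2 ^ d * (a * r ^ d) ^ t := by
          rw [mul_pow, mul_pow, ← pow_mul, ← pow_mul, mul_comm d t]; ring
  -- now let `t → ∞`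
  set q : ℕ := a * r ^ d with hq
  have hqpos : 0 < q := Nat.mul_pos ha (Nat.pow_pos hr)
  have h4 : ∀ t : ℕ, ((b : ℝ) / q) ^ t ≤ C * 2 ^ d := by
    intro t
    rw [div_pow, div_le_iff₀ (by positivity)]
    exact_mod_cast h3 t
  have hgt : 1 < (b : ℝ) / q := by
    rw [lt_div_iff₀ (by positivity), one_mul]
    exact_mod_cast hab
  obtain ⟨t, ht⟩ := pow_unbounded_of_one_lt ((C : ℝ) * 2 ^ d) hgt
  exact absurd (h4 t) (not_le.mpr ht)

end Pool.Agent.Lib.MilnorVan
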