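import Pool.Agent.Lib.MilnorVan.Tsq
import Pool.Agent.Lib.MilnorVan.Key
import Pool.Agent.Lib.MilnorVan.Growth
import Pool.Agent.Lib.MilnorVan.Pick

/-!
# Vanishing of long symbols with values in torsion free rings, `n ≥ 2 ^ (d + 1)`
-/

open scoped Pointwise

namespace Pool.Agent.Lib.MilnorVan

section

variable {F B : Type*} [Field F] [Ring B] {s : Fˣ → B}

/-- the `ℤ`-span of the symbols of elements of `W` -/
def Lsp (s : Fˣ → B) (W : Set F) : Submodule ℤ B := Submodule.span ℤ (s '' {u : Fˣ | (u : F) ∈ W})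

theorem mem_Lsp (s : Fˣ → B) (W : Set F) (u : Fˣ) (hu : (u : F) ∈ W) : s u ∈ Lsp s W :=
  Submodule.subset_span ⟨u, hu, rfl⟩

theorem IsSymb.isAlt (h : IsSymb s) (W : Set F) : IsAlt (Lsp s W) := by
  have hanti : ∀ x ∈ Lsp s W, ∀ y ∈ Lsp s W, x * y = -(y * x) := by
    intro x hx y hy
    refine Submodule.span_induction₂ (p := fun x y _ _ => x * y = -(y * x)) ?_ ?_ ?_ ?_ ?_ ?_ ?_ hx hy
    · rintro _ _ ⟨u, _, rfl⟩ ⟨v, _, rfl⟩
      exact h.anti u v
    · intro y _; simp
    · intro x _; simp
    · intro x y z _ _ _ h1 h2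
      rw [add_mul, mul_add, h1, h2]; abel
    · intro x y z _ _ _ h1 h2
      rw [add_mul, mul_add, h1, h2]; abel
    · intro r x y _ _ h1
      rw [smul_mul_assoc, mul_smul_comm, h1, smul_neg]
    · intro r x y _ _ h1
      rw [smul_mul_assoc, mul_smul_comm, h1, smul_neg]
  refine ⟨hanti, fun x hx => ?_⟩
  apply h.tf 2 _ two_ne_zero
  have := hanti x hx x hx
  rw [two_nsmul]
  nth_rewrite 1 [this]
  exact neg_add_cancel _

/-- the basic relation -/
theorem IsSymb.rel_zero (h : IsSymb s) {L : Submodule ℤ B} (hL : IsAlt L) {n : ℕ}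
    (u : Fin (n + 1) → F) (x : Fin (n + 1) → B) (hx : ∀ i, x i ∈ L) (hsum : ∑ i, u i = 0)
    (hne : ∃ i, u i ≠ 0) (hxu : ∀ i (hi : u i ≠ 0), x i = s (Units.mk0 (u i) hi)) :
    bd ((List.finRange (n + 1)).map x) = 0 := by
  classical
  obtain ⟨i0, hi0⟩ := hne
  obtain ⟨ε, _, hε⟩ := bd_perm hL (perm_succAbove n i0)
  set rest := (List.finRange n).map i0.succAbove with hrest
  rw [(hε x hx).1, List.map_cons, bd_cons_eq hL (hx i0)]
  · rw [List.map_map]
    set y : Fin (n + 1) → B := fun i => x i - x i0 with hy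
    have hyL : ∀ i, y i ∈ L := fun i => L.sub_mem (hx i) (hx i0)
    set P : Fin (n + 1) → Bool := fun i => decide (u i ≠ 0) with hP
    have hz : (rest.map y).prod = 0 := by
      apply prod_zero_of_sub hL (List.filter_append_perm P rest).symm y hyL
      have h1 : ((rest.filter P).map fun i =>
          if hi : u i ≠ 0 then -(Units.mk0 (u i) hi / Units.mk0 (u i0) hi0) else 1).map s =
          (rest.filter P).map y := by
        rw [List.map_map]
        apply List.map_congr_left
        intro i hi
        rw [List.mem_filter] at hi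
        have hi' : u i ≠ 0 := by simpa [hP] using hi.2
        simp only [Function.comp, dif_pos hi', hy]
        rw [h.neg, h.div, hxu i hi', hxu i0 hi0]
      rw [← h1]
      apply h.sum_one _ _ rfl
      rw [List.map_map]
      have h2 : (rest.filter P).map ((fun x : Fˣ => (x : F)) ∘ fun i =>
          if hi : u i ≠ 0 then -(Units.mk0 (u i) hi / Units.mk0 (u i0) hi0) else 1) =
          (rest.filter P).map (fun i => -(u i / u i0)) := by
        apply List.map_congr_left
        intro i hi
        rw [List.mem_filter] at hi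
        have hi' : u i ≠ 0 := by simpa [hP] using hi.2
        simp only [Function.comp, dif_pos hi']
        rw [Units.val_neg, Units.val_div_eq_div_val, Units.val_mk0, Units.val_mk0]
      rw [h2, sum_filter_of_zero]
      · rw [hrest, List.map_map]
        have h3 : ((List.finRange n).map ((fun i => -(u i / u i0)) ∘ i0.succAbove)).sum =
            ∑ i, -(u (i0.succAbove i) / u i0) := by
          rw [Fin.sum_univ_def]
          rfl
        rw [h3, Finset.sum_neg_distrib, ← Finset.sum_div]
        rw [Fin.sum_univ_succAbove _ i0] at hsum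
        have h4 : ∑ i, u (i0.succAbove i) = - u i0 := by
          exact (neg_eq_of_add_eq_zero_right hsum).symm
        rw [h4, neg_div, neg_neg, div_self hi0]
      · intro i hi
        have : u i = 0 := by simpa [hP] using hi
        simp [this]
    have h5 : (List.map ((fun x_1 => x_1 - x i0) ∘ x) rest) = rest.map y := rfl
    rw [h5, hz, smul_zero]
  · intro b hb
    rw [List.mem_map] at hb
    obtain ⟨i, _, rfl⟩ := hb
    exact hx i

theorem list_prod_mem_pow' (L : Submodule ℤ B) {ι : Type*} (a : ι → B) (ha : ∀ i, a i ∈ L)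
    (l : List ι) : (l.map a).prod ∈ L ^ l.length := by
  induction l with
  | nil =>
    rw [List.map_nil, List.prod_nil, List.length_nil, pow_zero]
    exact Submodule.one_le.mp le_rfl
  | cons i t ih =>
    rw [List.map_cons, List.prod_cons, List.length_cons, pow_succ']
    exact Submodule.mul_mem_mul (ha i) ih

/-- Nakayama -/
theorem IsSymb.nakayama (h : IsSymb s) {n p : ℕ} (hp : 2 ≤ p) (W : Set F) (hW : W.Finite)
    (hkey : ∀ f : Fin n → Fˣ, (∀ i, (f i : F) ∈ W) →
      ((List.finRange n).map (fun i => s (f i))).prod ∈ (Ideal.span {(p : ℤ)}) • (Lsp s W ^ n))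
    (f : Fin n → Fˣ) (hf : ∀ i, (f i : F) ∈ W) :
    ((List.finRange n).map (fun i => s (f i))).prod = 0 := by
  classical
  set T : Set B := s '' {u : Fˣ | (u : F) ∈ W} with hT
  have hTf : T.Finite := by
    apply Set.Finite.image
    exact hW.preimage (Units.val_injective.injOn)
  set L : Submodule ℤ B := Lsp s W with hL
  have hLT : L = Submodule.span ℤ T := rfl
  have hLfg : L.FG := Submodule.fg_span hTf
  have hmem : ∀ u : Fˣ, (u : F) ∈ W → s u ∈ L := fun u hu => mem_Lsp s W u hu
  have hAfg : (L ^ n).FG := hLfg.pow n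
  have hle : L ^ n ≤ (Ideal.span {(p : ℤ)}) • (L ^ n) := by
    have hpow : L ^ n = Submodule.span ℤ (T ^ n) := by
      rw [hLT, Submodule.span_pow]
    conv_lhs => rw [hpow]
    rw [Submodule.span_le]
    intro x hx
    rw [Set.mem_pow] at hx
    obtain ⟨g, hg⟩ := hx
    choose u hu using fun i => (g i).2
    have hx2 : x = ((List.finRange n).map (fun i => s (u i))).prod := by
      rw [← hg, List.ofFn_eq_map]
      congr 1
      apply List.map_congr_left
      intro i _
      exact (hu i).2.symm
    rw [hx2]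
    exact hkey u (fun i => (hu i).1)
  obtain ⟨r, hr, hr2⟩ := Submodule.exists_sub_one_mem_and_smul_eq_zero_of_fg_of_le_smul
    (Ideal.span {(p : ℤ)}) (L ^ n) hAfg hle
  have hr0 : r ≠ 0 := by
    rintro rfl
    rw [zero_sub, Ideal.mem_span_singleton] at hr
    have : (p : ℤ) ∣ 1 := (dvd_neg.mp hr)
    have h2 := Int.le_of_dvd one_pos this
    omega
  have hx : ((List.finRange n).map (fun i => s (f i))).prod ∈ L ^ n := by
    have := list_prod_mem_pow' L (fun i => s (f i)) (fun i => hmem _ (hf i)) (List.finRange n)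
    rwa [List.length_finRange] at this
  have h0 := hr2 _ hx
  apply h.tf r.natAbs _ (by simpa using hr0)
  rcases Int.natAbs_eq r with h1 | h1
  · rw [← natCast_zsmul, ← h1, h0]
  · rw [← natCast_zsmul]
    have : ((r.natAbs : ℕ) : ℤ) = -r := by omega
    rw [this, neg_smul, h0, neg_zero]

end

variable {k F B : Type*} [Field k] [Finite k] [Field F] [Algebra k F] [Ring B] {s : Fˣ → B}

omit [Finite k] in
theorem exists_perp {W W2 : Submodule k F} [FiniteDimensional k W] [FiniteDimensional k W2]
    (hmul : ∀ x ∈ W, ∀ y ∈ W, x * y ∈ W2) {n : ℕ}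
    (hdim : 2 * Module.finrank k W2 < (n + 1) * Module.finrank k W)
    (f g : Fin (n + 1) → W) : ∃ z : Fin (n + 1) → W, z ≠ 0 ∧ dot f z ∈ (⊥ : Submodule k F) ∧
      dot z g ∈ (⊥ : Submodule k F) := by
  have hd : ∀ f z : Fin (n + 1) → W, dot f z ∈ W2 := fun f z =>
    Submodule.sum_mem _ fun i _ => hmul _ (f i).2 _ (z i).2
  let ψ : (Fin (n + 1) → W) → (Fin (n + 1) → W) →ₗ[k] W2 := fun f =>
    { toFun := fun z => ⟨dot f z, hd f z⟩
      map_add' := by
        intro a b
        apply Subtype.ext
        exact dot_add f a b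
      map_smul' := by
        intro c a
        apply Subtype.ext
        simp only [dot, Pi.smul_apply, Submodule.coe_smul, mul_smul_comm, RingHom.id_apply,
          Finset.smul_sum] }
  let Ψ : (Fin (n + 1) → W) →ₗ[k] W2 × W2 := (ψ f).prod (ψ g)
  have hker : LinearMap.ker Ψ ≠ ⊥ := by
    apply LinearMap.ker_ne_bot_of_finrank_lt
    rw [Module.finrank_prod, Module.finrank_pi_fintype]
    simp only [Finset.sum_const, Finset.card_univ, Fintype.card_fin, smul_eq_mul]
    omega
  obtain ⟨z, hz, hz0⟩ := Submodule.exists_mem_ne_zero_of_ne_bot hker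
  rw [LinearMap.mem_ker] at hz
  have h1 : (ψ f) z = 0 := congrArg Prod.fst hz
  have h2 : (ψ g) z = 0 := congrArg Prod.snd hz
  refine ⟨z, hz0, ?_, ?_⟩
  · rw [Submodule.mem_bot]
    exact congrArg Subtype.val h1
  · rw [Submodule.mem_bot, dot_comm]
    exact congrArg Subtype.val h2

/-- If `(n + 1) dim W > 2 dim W²` then the symbols of length `n` on `W` vanish. -/
theorem IsSymb.vanish_space (h : IsSymb s) {n : ℕ} (hn : 1 ≤ n) (W W2 : Submodule k F)
    [FiniteDimensional k W] [FiniteDimensional k W2] (h1W : (1 : F) ∈ W)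
    (hmul : ∀ x ∈ W, ∀ y ∈ W, x * y ∈ W2)
    (hdim : 2 * Module.finrank k W2 < (n + 1) * Module.finrank k W)
    (f : Fin n → Fˣ) (hf : ∀ i, (f i : F) ∈ W) :
    ((List.finRange n).map (fun i => s (f i))).prod = 0 := by
  classical
  obtain ⟨p, hpk⟩ := CharP.exists k
  have hpr : Fact p.Prime := ⟨CharP.char_is_prime k p⟩
  have hfinW : Finite W := Module.finite_of_finite k
  let _ : Fintype W := Fintype.ofFinite W
  set L : Submodule ℤ B := Lsp s (W : Set F) with hLdef
  have hL : IsAlt L := h.isAlt _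
  set c : B := - ∑ w ∈ Finset.univ.erase (0 : W), lam s 0 (w : F) with hc
  have hcL : c ∈ L := by
    rw [hc]
    apply Submodule.neg_mem
    apply Submodule.sum_mem
    intro w hw
    have hw0 : (w : F) ≠ 0 := by
      have := Finset.ne_of_mem_erase hw
      simpa using this
    rw [lam_of_ne s 0 hw0]
    exact mem_Lsp s _ _ w.2
  have hlm : ∀ w : W, lam s c (w : F) ∈ L := by
    intro w
    by_cases hw0 : (w : F) = 0
    · rw [hw0, lam_zero]; exact hcL
    · rw [lam_of_ne s c hw0]
      exact mem_Lsp s _ _ w.2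
  have hsum : ∑ w : W, lam s c (w : F) = 0 := by
    rw [← Finset.add_sum_erase _ _ (Finset.mem_univ (0 : W))]
    have h1 : lam s c (((0 : W)) : F) = c := by
      rw [Submodule.coe_zero, lam_zero]
    rw [h1, hc, neg_add_eq_zero]
    apply Finset.sum_congr rfl
    intro w hw
    have hw0 : (w : F) ≠ 0 := by
      have := Finset.ne_of_mem_erase hw
      simpa using this
    rw [lam_of_ne s _ hw0, lam_of_ne s _ hw0]
  have hpW : ∀ w : W, p • w = 0 := by
    intro w
    have : (p : k) • w = 0 := by rw [CharP.cast_eq_zero, zero_smul]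
    rwa [Nat.cast_smul_eq_nsmul] at this
  set D : AddSubgroup B := ((Ideal.span {(p : ℤ)}) • (L ^ n) : Submodule ℤ B).toAddSubgroup with hD
  set θ : B →+ B ⧸ D := QuotientAddGroup.mk' D with hθd
  have hθ : ∀ x ∈ L ^ n, θ (p • x) = 0 := by
    intro x hx
    rw [hθd, QuotientAddGroup.mk'_apply, QuotientAddGroup.eq_zero_iff, hD, Submodule.mem_toAddSubgroup,
      ← natCast_zsmul]
    exact Submodule.smul_mem_smul (Ideal.mem_span_singleton_self _) hx
  have hrel : ∀ f z : Fin (n + 1) → W, (∀ i, f i ≠ 0) → z ≠ 0 → dot f z ∈ (⊥ : Submodule k F) →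
      θ (bd ((List.finRange (n + 1)).map fun i => lam s c (f i : F) + lam s c (z i : F))) = 0 := by
    intro f z hf hz hfz
    rw [Submodule.mem_bot] at hfz
    rw [h.rel_zero hL (fun i => (f i : F) * (z i : F))
      (fun i => lam s c (f i : F) + lam s c (z i : F)) (fun i => L.add_mem (hlm _) (hlm _)) hfz,
      map_zero]
    · obtain ⟨i, hi⟩ := Function.ne_iff.mp hz
      refine ⟨i, mul_ne_zero ?_ ?_⟩
      · simpa using hf i
      · simpa using hi
    · intro i hi
      have h1 : (f i : F) ≠ 0 := left_ne_zero_of_mul hi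
      have h2 : (z i : F) ≠ 0 := right_ne_zero_of_mul hi
      rw [lam_of_ne s c h1, lam_of_ne s c h2, ← h.mul]
      congr 1
      ext
      simp
  have hntr : Nontrivial W := ⟨⟨⟨1, h1W⟩, 0, fun h0 => one_ne_zero (congrArg Subtype.val h0)⟩⟩
  apply h.nakayama hpr.out.two_le (W : Set F) (Set.toFinite _) _ f hf
  intro u hu
  let f' : Fin (n + 1) → W := Fin.cons ⟨1, h1W⟩ (fun i => ⟨(u i : F), hu i⟩)
  have hEv : Ev θ (lam s c) f' = 0 := by
    apply Ev_zero hL hn p hpW θ hθ (lam s c) hlm hsum ⊥ hrel f'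
    · intro i
      refine Fin.cases ?_ ?_ i
      · intro h0
        exact one_ne_zero (congrArg Subtype.val h0)
      · intro j h0
        exact (u j).ne_zero (congrArg Subtype.val h0)
    · intro g
      exact exists_perp hmul hdim _ g
    · intro l g
      exact exists_perp hmul hdim _ g
  rw [Ev, List.finRange_succ, List.map_cons, bd_cons_eq hL (hlm _)] at hEv
  · have h1 : lam s c ((f' 0 : W) : F) = 0 := by
      have : ((f' 0 : W) : F) = ((1 : Fˣ) : F) := by simp [f']
      rw [this, lam_unit, h.one]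
    rw [h1, List.map_map, List.map_map] at hEv
    have h2 : (List.map (((fun x => x - 0) ∘ fun i => lam s c ((f' i : W) : F)) ∘ Fin.succ)
        (List.finRange n)) = (List.finRange n).map (fun i => s (u i)) := by
      apply List.map_congr_left
      intro i _
      simp only [Function.comp, sub_zero]
      have : ((f' i.succ : W) : F) = (u i : F) := by simp [f']
      rw [this, lam_unit]
    rw [h2, hθd, QuotientAddGroup.mk'_apply, QuotientAddGroup.eq_zero_iff, hD,
      Submodule.mem_toAddSubgroup] at hEv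
    exact hEv
  · intro b hb
    rw [List.map_map, List.mem_map] at hb
    obtain ⟨i, _, rfl⟩ := hb
    exact hlm _

theorem vanish_field2 (h : IsSymb s) (d n : ℕ) (hd : Algebra.trdeg k F ≤ d)
    (hn : 2 ^ (d + 1) ≤ n) (f : Fin n → Fˣ) :
    ((List.finRange n).map (fun i => s (f i))).prod = 0 := by
  classical
  set V : Submodule k F := Submodule.span k (insert 1 (Set.range fun i => (f i : F))) with hV
  have hVfg : V.FG := Submodule.fg_span ((Set.finite_range _).insert 1)
  have h1V : (1 : F) ∈ V := Submodule.subset_span (Set.mem_insert _ _)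
  have hone : (1 : Submodule k F) ≤ V := Submodule.one_le.mpr h1V
  have hfV : ∀ i, (f i : F) ∈ V := fun i =>
    Submodule.subset_span (Set.mem_insert_of_mem _ ⟨i, rfl⟩)
  obtain ⟨C, hC⟩ := exists_growth V hVfg d hd
  have hfd : ∀ m, FiniteDimensional k ↥(V ^ m) := fun m => (hC m).2
  set D : ℕ → ℕ := fun m => Module.finrank k ↥(V ^ m) with hD
  have hpos : 1 ≤ D 1 := by
    rw [hD]
    simp only
    have := hfd 1
    apply Nat.one_le_iff_ne_zero.mpr
    intro h0
    rw [Submodule.finrank_eq_zero, pow_one] at h0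
    rw [h0, Submodule.mem_bot] at h1V
    exact one_ne_zero h1V
  have hVm : ∀ m, 1 ≤ m → V ≤ V ^ m := by
    intro m hm
    calc V = V ^ 1 := (pow_one V).symm
      _ ≤ V ^ m := pow_le_pow_right' hone hm
  have hn' : 2 * 2 ^ d < n + 1 := by
    rw [pow_succ] at hn
    omega
  obtain ⟨m, hm1, hm⟩ := exists_good D C d 2 (n + 1) 2 (by norm_num) (by norm_num)
    (fun m => (hC m).1) hpos hn'
  have i1 := hfd m
  have i2 := hfd (2 * m)
  have hn1 : 1 ≤ n := le_trans (Nat.one_le_two_pow) hn
  apply h.vanish_space hn1 (V ^ m) (V ^ (2 * m)) (hVm m hm1 h1V) _ hm f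
    (fun i => hVm m hm1 (hfV i))
  intro x hx y hy
  rw [two_mul, pow_add]
  exact Submodule.mul_mem_mul hx hy

end Pool.Agent.Lib.MilnorVan
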