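import Pool.Agent.Lib.MilnorVan.Radon

/-!
# Divisibility by `p` of alternating symbols
-/

namespace Pool.Agent.Lib.MilnorVan

variable {k F B C : Type*} [Field k] [Field F] [Algebra k F] [Ring B] [AddCommGroup C]
  {W : Submodule k F} [Fintype W] {L : Submodule ℤ B} (hL : IsAlt L) {n : ℕ} (hn : 1 ≤ n)
  (p : ℕ) [hp : Fact p.Prime] (hpW : ∀ w : W, p • w = 0) (θ : B →+ C)
  (hθ : ∀ x ∈ L ^ n, θ (p • x) = 0) (lm : F → B) (hlm : ∀ w : W, lm w ∈ L)
  (hsum : ∑ w : W, lm w = 0)
  (Q : Submodule k F)
  (hrel : ∀ f z : Fin (n + 1) → W, (∀ i, f i ≠ 0) → z ≠ 0 → dot f z ∈ Q →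
    θ (bd ((List.finRange (n + 1)).map fun i => lm (f i) + lm (z i))) = 0)

open Classical in
include hL hn hp hpW hθ hlm hrel in
theorem radon_nondeg (f : Fin (n + 1) → W) (hf : ∀ i, f i ≠ 0) :
    ∑ z with dot f z ∈ Q, Ev θ lm z = Ev θ lm f := by
  have h1 := sum_dep (L := L) hn p hpW θ hθ f hf (fun z => dot f z ∈ Q) (by
    intro z κ h0
    rw [dot_add, h0, add_zero])
    (fun z => bd ((0 :: (List.finRange n).map Fin.succ).map fun i => lm (f i) + lm (z i)) -
      bd ((0 :: (List.finRange n).map Fin.succ).map fun i => lm (z i))) (by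
    have := Dep.bdDiff (L := L) (φ := fun w : W => lm w) hlm (x := fun i => lm (f i))
      (fun i => hlm _) 0 ((List.finRange n).map Fin.succ)
    rw [List.length_map, List.length_finRange] at this
    exact this)
  rw [← List.finRange_succ] at h1
  simp only [map_sub, Finset.sum_sub_distrib] at h1
  have h2 : ∑ z with dot f z ∈ Q,
      θ (bd ((List.finRange (n + 1)).map fun i => lm (f i) + lm (z i))) = Ev θ lm f := by
    rw [Finset.sum_eq_single (0 : Fin (n + 1) → W)]
    · have := bd_add_const hL (fun i => lm (f i)) (fun i => hlm _) (lm ((0 : W) : F)) (hlm 0)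
        (List.finRange (n + 1))
      simp only [Pi.zero_apply]
      rw [this]
      rfl
    · intro z hz hz0
      rw [Finset.mem_filter] at hz
      exact hrel f z hf hz0 hz.2
    · intro h0
      exfalso
      apply h0
      rw [Finset.mem_filter]
      refine ⟨Finset.mem_univ _, ?_⟩
      have : dot f (0 : Fin (n + 1) → W) = 0 := by simp [dot]
      rw [this]
      exact Q.zero_mem
  rw [h2, sub_eq_zero] at h1
  exact h1.symm

include hL hp hpW hθ hlm hsum in
theorem sum_insertNth [Nontrivial W] (l : Fin (n + 1)) (z' : Fin n → W) :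
    ∑ w : W, Ev θ lm (l.insertNth w z' : Fin (n + 1) → W) = 0 := by
  obtain ⟨ε, _, hε⟩ := bd_perm hL (perm_succAbove n l)
  have h1 : ∀ w : W, Ev θ lm (l.insertNth w z' : Fin (n + 1) → W) =
      ε • (θ (((List.finRange n).map fun i => lm (z' i)).prod) -
        θ (lm w * bd ((List.finRange n).map fun i => lm (z' i)))) := by
    intro w
    rw [Ev, (hε (fun i => lm ((l.insertNth w z' : Fin (n + 1) → W) i)) (fun i => hlm _)).1]
    rw [List.map_cons, bd_cons, List.map_map, map_zsmul, map_sub]
    simp only [Fin.insertNth_apply_same, Function.comp_def, Fin.insertNth_apply_succAbove]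
  simp only [h1]
  rw [← Finset.smul_sum, Finset.sum_sub_distrib, Finset.sum_const, ← map_sum, ← Finset.sum_mul,
    hsum, zero_mul, map_zero, sub_zero, ← map_nsmul, Finset.card_univ, ← Nat.card_eq_fintype_card]
  have hmem : ((List.finRange n).map fun i => lm (z' i)).prod ∈ L ^ n := by
    have : ∀ l : List (Fin n), (l.map fun i => lm (z' i)).prod ∈ L ^ l.length := by
      intro l
      induction l with
      | nil =>
        rw [List.map_nil, List.prod_nil, List.length_nil, pow_zero]
        exact Submodule.one_le.mp le_rfl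
      | cons a l ih =>
        rw [List.map_cons, List.prod_cons, List.length_cons, pow_succ']
        exact Submodule.mul_mem_mul (hlm _) ih
    simpa using this (List.finRange n)
  rw [theta_card p hpW θ hθ inferInstance _ hmem, smul_zero]

omit [Fintype W] in
theorem dot_insertNth (f : Fin (n + 1) → W) (l : Fin (n + 1)) (w : W) (z' : Fin n → W) :
    dot f (l.insertNth w z' : Fin (n + 1) → W) =
      (f l : F) * w + ∑ i, (f (l.succAbove i) : F) * z' i := by
  unfold dot
  rw [Fin.sum_univ_succAbove _ l]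
  simp

open Classical in
include hL hp hpW hθ hlm hsum in
theorem radon_deg [Nontrivial W] (f : Fin (n + 1) → W) (l : Fin (n + 1)) (hf : f l = 0) :
    ∑ z with dot f z ∈ Q, Ev θ lm z = 0 := by
  rw [Finset.sum_filter, ← (Fin.insertNthEquiv (fun _ => W) l).sum_comp, Fintype.sum_prod_type,
    Finset.sum_comm]
  apply Finset.sum_eq_zero
  intro z' _
  have h1 : ∀ w : W, (dot f ((Fin.insertNthEquiv (fun _ => W) l) (w, z')) ∈ Q) =
      (∑ i, (f (l.succAbove i) : F) * z' i ∈ Q) := by
    intro w
    have : (Fin.insertNthEquiv (fun _ => W) l) (w, z') = l.insertNth w z' := rfl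
    rw [this, dot_insertNth, hf]
    simp
  simp only [h1]
  by_cases h2 : ∑ i, (f (l.succAbove i) : F) * z' i ∈ Q
  · simp only [h2, if_true]
    exact sum_insertNth hL p hpW θ hθ lm hlm hsum l z'
  · simp only [h2, if_false, Finset.sum_const_zero]

open Classical in
include hL hn hp hpW hθ hlm hsum hrel in
/-- the square of the transform vanishes -/
theorem radon_sq [Nontrivial W] (f : Fin (n + 1) → W)
    (hf : ∀ g : Fin (n + 1) → W, ∃ z : Fin (n + 1) → W, z ≠ 0 ∧ dot f z ∈ Q ∧ dot z g ∈ Q) :
    ∑ z with (dot f z ∈ Q ∧ ∀ i, z i ≠ 0), Ev θ lm z = 0 := by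
  have h1 : ∑ z with (dot f z ∈ Q ∧ ∀ i, z i ≠ 0), Ev θ lm z =
      ∑ z with dot f z ∈ Q, ∑ g with dot z g ∈ Q, Ev θ lm g := by
    rw [← Finset.filter_filter, Finset.sum_filter]
    apply Finset.sum_congr rfl
    intro z _
    by_cases hz : ∀ i, z i ≠ 0
    · rw [if_pos hz, radon_nondeg hL hn p hpW θ hθ lm hlm Q hrel z hz]
    · rw [if_neg hz]
      push Not at hz
      obtain ⟨l, hl⟩ := hz
      rw [radon_deg hL p hpW θ hθ lm hlm hsum Q z l hl]
  rw [h1]
  simp only [Finset.sum_filter]
  have h2 : ∀ z : Fin (n + 1) → W, (if dot f z ∈ Q then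
      ∑ g : Fin (n + 1) → W, (if dot z g ∈ Q then Ev θ lm g else 0) else 0) =
      ∑ g : Fin (n + 1) → W, (if (dot f z ∈ Q ∧ dot z g ∈ Q) then Ev θ lm g else 0) := by
    intro z
    by_cases hz : dot f z ∈ Q
    · simp only [hz, if_true, true_and]
    · simp only [hz, if_false, false_and, Finset.sum_const_zero]
  simp only [h2]
  rw [Finset.sum_comm]
  apply Finset.sum_eq_zero
  intro g _
  rw [← Finset.sum_filter, Finset.sum_const]
  -- the number of terms is divisible by `p`
  set Λ : Submodule k (Fin (n + 1) → W) :=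
    { carrier := {z | dot f z ∈ Q ∧ dot z g ∈ Q}
      add_mem' := by
        rintro a b ⟨h1, h2⟩ ⟨h3, h4⟩
        refine ⟨?_, ?_⟩
        · rw [dot_add]; exact Q.add_mem h1 h3
        · rw [dot_comm, dot_add, dot_comm g a, dot_comm g b]; exact Q.add_mem h2 h4
      zero_mem' := by
        refine ⟨?_, ?_⟩ <;> simp [dot]
      smul_mem' := by
        rintro c a ⟨h1, h2⟩
        refine ⟨?_, ?_⟩
        · have : dot f (c • a) = c • dot f a := by
            simp only [dot, Pi.smul_apply, Submodule.coe_smul, mul_smul_comm, Finset.smul_sum]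
          rw [this]
          exact Q.smul_mem c h1
        · have : dot (c • a) g = c • dot a g := by
            simp only [dot, Pi.smul_apply, Submodule.coe_smul, smul_mul_assoc, Finset.smul_sum]
          rw [this]
          exact Q.smul_mem c h2 } with hΛ
  have hcard : (Finset.univ.filter fun z : Fin (n + 1) → W => dot f z ∈ Q ∧ dot z g ∈ Q).card =
      Nat.card Λ := by
    rw [Nat.card_eq_fintype_card]
    exact (Fintype.card_of_subtype _ (by
      intro z
      rw [Finset.mem_filter]
      simp only [Finset.mem_univ, true_and]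
      rfl)).symm
  obtain ⟨z, hz0, hz⟩ := hf g
  have h3 : addOrderOf (⟨z, hz⟩ : Λ) = p := by
    apply addOrderOf_eq_prime
    · apply Subtype.ext
      funext i
      exact hpW _
    · intro h0
      apply hz0
      exact congrArg Subtype.val h0
  have h4 : p ∣ Nat.card Λ := by
    rw [← h3]
    exact addOrderOf_dvd_natCard _
  obtain ⟨m, hm⟩ := h4
  rw [hcard, hm, mul_comm, mul_smul, p_smul_Ev p θ hθ lm hlm, smul_zero]

open Classical in
include hL hn hp hpW hθ hlm hsum hrel in
theorem Ev_zero [Nontrivial W] (f : Fin (n + 1) → W) (hf : ∀ i, f i ≠ 0)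
    (h2 : ∀ g : Fin (n + 1) → W, ∃ z : Fin (n + 1) → W, z ≠ 0 ∧ dot f z ∈ Q ∧ dot z g ∈ Q)
    (h3 : ∀ l, ∀ g : Fin (n + 1) → W, ∃ z : Fin (n + 1) → W, z ≠ 0 ∧
      dot (Function.update f l 0) z ∈ Q ∧ dot z g ∈ Q) :
    Ev θ lm f = 0 := by
  rw [← radon_nondeg hL hn p hpW θ hθ lm hlm Q hrel f hf]
  -- degenerate points
  have hdeg : ∀ z : Fin (n + 1) → W, Ev θ lm z = (if ∀ i, z i ≠ 0 then Ev θ lm z else 0) +
      ∑ l, (if (z l = 0 ∧ ∀ i, i ≠ l → z i ≠ 0) then Ev θ lm z else 0) := by
    intro z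
    by_cases hz : ∀ i, z i ≠ 0
    · rw [if_pos hz, Finset.sum_eq_zero, add_zero]
      intro l _
      rw [if_neg]
      rintro ⟨h, _⟩
      exact hz l h
    · rw [if_neg hz, zero_add]
      push Not at hz
      obtain ⟨l, hl⟩ := hz
      by_cases hz2 : ∀ i, i ≠ l → z i ≠ 0
      · rw [Finset.sum_eq_single l, if_pos ⟨hl, hz2⟩]
        · intro l' _ hne
          rw [if_neg]
          rintro ⟨h, _⟩
          exact hz2 l' hne h
        · intro h; exact absurd (Finset.mem_univ _) h
      · push Not at hz2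
        obtain ⟨l', hne, hl'⟩ := hz2
        have h0 : Ev θ lm z = 0 := by
          rw [Ev, bd_two_eq hL (List.finRange (n + 1)) (List.nodup_finRange _)
            (fun i => lm (z i)) (fun i => hlm _) l l' (List.mem_finRange _) (List.mem_finRange _)
            hne.symm (by simp only [hl, hl']), map_zero]
        rw [h0]
        simp
  have e1 : ∑ z with dot f z ∈ Q, Ev θ lm z =
      ∑ z with (dot f z ∈ Q ∧ ∀ i, z i ≠ 0), Ev θ lm z +
      ∑ l, ∑ z with (dot f z ∈ Q ∧ z l = 0 ∧ ∀ i, i ≠ l → z i ≠ 0), Ev θ lm z := by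
    simp only [Finset.sum_filter]
    rw [Finset.sum_comm, ← Finset.sum_add_distrib]
    apply Finset.sum_congr rfl
    intro z _
    by_cases hz : dot f z ∈ Q
    · simp only [hz, if_true, true_and]
      exact hdeg z
    · simp only [hz, if_false, false_and, Finset.sum_const_zero, add_zero]
  rw [e1, radon_sq hL hn p hpW θ hθ lm hlm hsum Q hrel f h2, zero_add]
  apply Finset.sum_eq_zero
  intro l _
  -- use the transform at the point with the `l`-th coordinate removed
  have h4 := radon_sq hL hn p hpW θ hθ lm hlm hsum Q hrel (Function.update f l 0) (h3 l)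
  rw [Finset.sum_filter, ← (Fin.insertNthEquiv (fun _ => W) l).sum_comp, Fintype.sum_prod_type,
    Finset.sum_comm] at h4 ⊢
  apply neg_eq_zero.mp
  refine Eq.trans ?_ h4
  rw [← Finset.sum_neg_distrib]
  apply Finset.sum_congr rfl
  intro z' _
  have hins : ∀ w : W, (Fin.insertNthEquiv (fun _ => W) l) (w, z') = l.insertNth w z' :=
    fun w => rfl
  simp only [hins]
  have hd1 : ∀ w : W, dot (Function.update f l 0) (l.insertNth w z' : Fin (n + 1) → W) =
      ∑ i, (f (l.succAbove i) : F) * z' i := by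
    intro w
    rw [dot_insertNth]
    simp
  have hd2 : dot f (l.insertNth (0 : W) z' : Fin (n + 1) → W) =
      ∑ i, (f (l.succAbove i) : F) * z' i := by
    rw [dot_insertNth]
    simp
  have hc1 : ∀ w : W, (∀ i, (l.insertNth w z' : Fin (n + 1) → W) i ≠ 0) ↔
      (w ≠ 0 ∧ ∀ i, z' i ≠ 0) := by
    intro w
    rw [Fin.forall_iff_succAbove l]
    simp
  have hc2 : ∀ w : W, ((l.insertNth w z' : Fin (n + 1) → W) l = 0 ∧
      ∀ i, i ≠ l → (l.insertNth w z' : Fin (n + 1) → W) i ≠ 0) ↔ (w = 0 ∧ ∀ i, z' i ≠ 0) := by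
    intro w
    rw [Fin.insertNth_apply_same]
    apply and_congr_right
    intro _
    constructor
    · intro h i
      have := h (l.succAbove i) (Fin.succAbove_ne l i)
      rwa [Fin.insertNth_apply_succAbove] at this
    · intro h i hi
      obtain ⟨j, rfl⟩ := Fin.exists_succAbove_eq hi
      rw [Fin.insertNth_apply_succAbove]
      exact h j
  have hs := sum_insertNth hL p hpW θ hθ lm hlm hsum l z'
  by_cases hq : ∑ i, (f (l.succAbove i) : F) * z' i ∈ Q ∧ ∀ i, z' i ≠ 0
  · -- the interesting case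
    have e2 : (∑ w : W, if (dot f (l.insertNth w z' : Fin (n + 1) → W) ∈ Q ∧
        (l.insertNth w z' : Fin (n + 1) → W) l = 0 ∧
        ∀ i, i ≠ l → (l.insertNth w z' : Fin (n + 1) → W) i ≠ 0) then
        Ev θ lm (l.insertNth w z' : Fin (n + 1) → W) else 0) =
        Ev θ lm (l.insertNth (0 : W) z' : Fin (n + 1) → W) := by
      rw [Finset.sum_eq_single (0 : W)]
      · rw [if_pos]
        rw [hc2, hd2]
        exact ⟨hq.1, rfl, hq.2⟩
      · intro w _ hw
        rw [if_neg]
        rw [hc2]
        rintro ⟨_, h, _⟩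
        exact hw h
      · intro h; exact absurd (Finset.mem_univ _) h
    have e3 : (∑ w : W, if (dot (Function.update f l 0) (l.insertNth w z' : Fin (n + 1) → W) ∈ Q ∧
        ∀ i, (l.insertNth w z' : Fin (n + 1) → W) i ≠ 0) then
        Ev θ lm (l.insertNth w z' : Fin (n + 1) → W) else 0) =
        ∑ w ∈ Finset.univ.erase (0 : W), Ev θ lm (l.insertNth w z' : Fin (n + 1) → W) := by
      rw [← Finset.add_sum_erase _ _ (Finset.mem_univ (0 : W)), if_neg, zero_add]
      · apply Finset.sum_congr rfl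
        intro w hw
        rw [if_pos]
        rw [hd1, hc1]
        exact ⟨hq.1, Finset.ne_of_mem_erase hw, hq.2⟩
      · rw [hc1]
        rintro ⟨_, h, _⟩
        exact h rfl
    rw [e2, e3]
    rw [← Finset.add_sum_erase _ _ (Finset.mem_univ (0 : W))] at hs
    rw [neg_eq_iff_add_eq_zero]
    exact hs
  · have e2 : (∑ w : W, if (dot f (l.insertNth w z' : Fin (n + 1) → W) ∈ Q ∧
        (l.insertNth w z' : Fin (n + 1) → W) l = 0 ∧
        ∀ i, i ≠ l → (l.insertNth w z' : Fin (n + 1) → W) i ≠ 0) then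
        Ev θ lm (l.insertNth w z' : Fin (n + 1) → W) else 0) = 0 := by
      apply Finset.sum_eq_zero
      intro w _
      rw [if_neg]
      rw [hc2]
      rintro ⟨h1, rfl, h2⟩
      rw [hd2] at h1
      exact hq ⟨h1, h2⟩
    have e3 : (∑ w : W, if (dot (Function.update f l 0) (l.insertNth w z' : Fin (n + 1) → W) ∈ Q ∧
        ∀ i, (l.insertNth w z' : Fin (n + 1) → W) i ≠ 0) then
        Ev θ lm (l.insertNth w z' : Fin (n + 1) → W) else 0) = 0 := by
      apply Finset.sum_eq_zero
      intro w _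
      rw [if_neg]
      rw [hc1, hd1]
      rintro ⟨h1, _, h2⟩
      exact hq ⟨h1, h2⟩
    rw [e2, e3, neg_zero]

end Pool.Agent.Lib.MilnorVan
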