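import Pool.Agent.Lib.MilnorVan.Symb

/-!
# The alternating boundary of a product of anticommuting elements
-/

namespace Pool.Agent.Lib.MilnorVan

variable {B : Type*} [Ring B]

/-- `bd [x₀, …, xₙ] = ∑ (-1)^j x₀ ⋯ x̂ⱼ ⋯ xₙ` -/
def bd : List B → B
  | [] => 0
  | x :: l => l.prod - x * bd l

@[simp] theorem bd_nil : bd ([] : List B) = 0 := rfl

@[simp] theorem bd_cons (x : B) (l : List B) : bd (x :: l) = l.prod - x * bd l := rfl

/-- the elements of `L` anticommute and have square zero -/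
structure IsAlt (L : Submodule ℤ B) : Prop where
  anti : ∀ x ∈ L, ∀ y ∈ L, x * y = -(y * x)
  sq : ∀ x ∈ L, x * x = 0

variable {L : Submodule ℤ B} (hL : IsAlt L)

include hL

theorem bd_cons_eq {y : B} (hy : y ∈ L) (l : List B) (hl : ∀ x ∈ l, x ∈ L) :
    bd (y :: l) = (l.map (fun x => x - y)).prod := by
  induction l with
  | nil => simp
  | cons x l ih =>
    have hx : x ∈ L := hl x (by simp)
    have hl' : ∀ x ∈ l, x ∈ L := fun z hz => hl z (by simp [hz])
    have ih' := ih hl'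
    rw [bd_cons] at ih'
    rw [List.map_cons, List.prod_cons, ← ih', bd_cons, bd_cons, List.prod_cons]
    have e1 : x * (y * bd l) = -(y * (x * bd l)) := by
      rw [← mul_assoc, ← mul_assoc, hL.anti x hx y hy, neg_mul]
    have e2 : y * (y * bd l) = 0 := by rw [← mul_assoc, hL.sq y hy, zero_mul]
    rw [sub_mul, mul_sub, mul_sub, mul_sub, e1, e2]
    abel

theorem bd_add_const {ι : Type*} (x : ι → B) (hx : ∀ i, x i ∈ L) (c : B) (hc : c ∈ L)
    (l : List ι) : bd (l.map fun i => x i + c) = bd (l.map x) := by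
  cases l with
  | nil => rfl
  | cons a l =>
    rw [List.map_cons, List.map_cons, bd_cons_eq hL (L.add_mem (hx a) hc), bd_cons_eq hL (hx a),
      List.map_map, List.map_map]
    · congr 1
      apply List.map_congr_left
      intro i _
      simp
    · intro y hy
      rw [List.mem_map] at hy
      obtain ⟨i, _, rfl⟩ := hy
      exact hx i
    · intro y hy
      rw [List.mem_map] at hy
      obtain ⟨i, _, rfl⟩ := hy
      exact L.add_mem (hx i) hc

theorem bd_perm {ι : Type*} {l l' : List ι} (hp : l.Perm l') :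
    ∃ ε : ℤ, (ε = 1 ∨ ε = -1) ∧ ∀ x : ι → B, (∀ i, x i ∈ L) →
      bd (l.map x) = ε • bd (l'.map x) ∧ (l.map x).prod = ε • (l'.map x).prod := by
  induction hp with
  | nil => exact ⟨1, Or.inl rfl, fun x _ => by simp⟩
  | cons a _ ih =>
    obtain ⟨ε, hε, h⟩ := ih
    refine ⟨ε, hε, fun x hx => ?_⟩
    obtain ⟨h1, h2⟩ := h x hx
    simp only [List.map_cons, bd_cons, List.prod_cons]
    rw [h1, h2]
    constructor
    · rw [mul_smul_comm, smul_sub]
    · rw [mul_smul_comm]
  | swap a b l =>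
    refine ⟨-1, Or.inr rfl, fun x hx => ?_⟩
    simp only [List.map_cons, bd_cons, List.prod_cons, neg_smul, one_smul]
    constructor
    · rw [mul_sub, mul_sub, ← mul_assoc, ← mul_assoc, hL.anti (x b) (hx b) (x a) (hx a), neg_mul]
      abel
    · rw [← mul_assoc, ← mul_assoc, hL.anti (x b) (hx b) (x a) (hx a), neg_mul]
  | trans _ _ ih1 ih2 =>
    obtain ⟨ε1, hε1, h1⟩ := ih1
    obtain ⟨ε2, hε2, h2⟩ := ih2
    refine ⟨ε1 * ε2, ?_, fun x hx => ?_⟩
    · rcases hε1 with rfl | rfl <;> rcases hε2 with rfl | rfl <;> simp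
    · obtain ⟨a1, a2⟩ := h1 x hx
      obtain ⟨b1, b2⟩ := h2 x hx
      rw [a1, a2, b1, b2, mul_smul, mul_smul]
      exact ⟨rfl, rfl⟩

theorem bd_two_eq {ι : Type*} [DecidableEq ι] (l : List ι) (hl : l.Nodup) (x : ι → B)
    (hx : ∀ i, x i ∈ L) (a b : ι) (ha : a ∈ l) (hb : b ∈ l) (hab : a ≠ b) (he : x a = x b) :
    bd (l.map x) = 0 := by
  have hp1 : l.Perm (a :: l.erase a) := List.perm_cons_erase ha
  have hb' : b ∈ l.erase a := (hl.mem_erase_iff).mpr ⟨hab.symm, hb⟩
  have hp2 : (l.erase a).Perm (b :: (l.erase a).erase b) := List.perm_cons_erase hb'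
  obtain ⟨ε, _, h⟩ := bd_perm hL (hp1.trans (hp2.cons a))
  rw [(h x hx).1]
  simp only [List.map_cons, bd_cons, List.prod_cons]
  rw [he, mul_sub, ← mul_assoc, hL.sq (x b) (hx b), zero_mul, sub_zero, sub_self, smul_zero]

/-- if a part of the product vanishes then everything does -/
theorem prod_zero_of_sub {ι : Type*} {l l1 l2 : List ι} (hp : l.Perm (l1 ++ l2)) (x : ι → B)
    (hx : ∀ i, x i ∈ L) (h0 : (l1.map x).prod = 0) : (l.map x).prod = 0 := by
  obtain ⟨ε, _, h⟩ := bd_perm hL hp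
  rw [(h x hx).2, List.map_append, List.prod_append, h0, zero_mul, smul_zero]

end Pool.Agent.Lib.MilnorVan
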