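import Pool.Agent.Lib.MilnorVan.Bdry

/-!
# Functions depending on few coordinates
-/

namespace Pool.Agent.Lib.MilnorVan

variable {B : Type*} [Ring B] (L : Submodule ℤ B) {ι Z : Type*}

/-- functions `(ι → Z) → B` that are sums of functions with values in `L ^ m` which depend on at most
`t` coordinates -/
def Dep (ι Z : Type*) (m t : ℕ) : AddSubgroup ((ι → Z) → B) :=
  AddSubgroup.closure {G | (∀ z, G z ∈ L ^ m) ∧
    ∃ T : Finset ι, T.card ≤ t ∧ ∀ z z' : ι → Z, (∀ i ∈ T, z i = z' i) → G z = G z'}

variable {L}

theorem Dep.mono {m t t' : ℕ} (h : t ≤ t') : Dep L ι Z m t ≤ Dep L ι Z m t' := by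
  apply AddSubgroup.closure_mono
  rintro G ⟨h1, T, h2, h3⟩
  exact ⟨h1, T, h2.trans h, h3⟩

theorem Dep.mul {m m' t t' : ℕ} {G G' : (ι → Z) → B} (hG : G ∈ Dep L ι Z m t)
    (hG' : G' ∈ Dep L ι Z m' t') : (fun z => G z * G' z) ∈ Dep L ι Z (m + m') (t + t') := by
  classical
  refine AddSubgroup.closure_induction (p := fun G _ => (fun z => G z * G' z) ∈
    Dep L ι Z (m + m') (t + t')) ?_ ?_ ?_ ?_ hG
  · rintro G ⟨h1, T, h2, h3⟩
    refine AddSubgroup.closure_induction (p := fun G' _ => (fun z => G z * G' z) ∈
      Dep L ι Z (m + m') (t + t')) ?_ ?_ ?_ ?_ hG'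
    · rintro G' ⟨h1', T', h2', h3'⟩
      apply AddSubgroup.subset_closure
      refine ⟨fun z => ?_, T ∪ T', ?_, ?_⟩
      · rw [pow_add]
        exact Submodule.mul_mem_mul (h1 z) (h1' z)
      · exact (Finset.card_union_le _ _).trans (Nat.add_le_add h2 h2')
      · intro z z' hz
        simp only
        rw [h3 z z' (fun i hi => hz i (Finset.mem_union_left _ hi)),
          h3' z z' (fun i hi => hz i (Finset.mem_union_right _ hi))]
    · simp only [Pi.zero_apply, mul_zero]
      exact AddSubgroup.zero_mem _
    · intro G1 G2 _ _ i1 i2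
      have := AddSubgroup.add_mem _ i1 i2
      convert this using 1
      funext z
      simp [mul_add]
    · intro G1 _ i1
      have := AddSubgroup.neg_mem _ i1
      convert this using 1
      funext z
      simp
  · simp only [Pi.zero_apply, zero_mul]
    exact AddSubgroup.zero_mem _
  · intro G1 G2 _ _ i1 i2
    have := AddSubgroup.add_mem _ i1 i2
    convert this using 1
    funext z
    simp [add_mul]
  · intro G1 _ i1
    have := AddSubgroup.neg_mem _ i1
    convert this using 1
    funext z
    simp

theorem Dep.one : (fun _ : ι → Z => (1 : B)) ∈ Dep L ι Z 0 0 := by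
  apply AddSubgroup.subset_closure
  refine ⟨fun z => ?_, ∅, by simp, fun _ _ _ => rfl⟩
  rw [pow_zero]
  exact Submodule.one_le.mp le_rfl

theorem Dep.const {x : B} (hx : x ∈ L) : (fun _ : ι → Z => x) ∈ Dep L ι Z 1 0 := by
  apply AddSubgroup.subset_closure
  exact ⟨fun z => by rwa [pow_one], ∅, by simp, fun _ _ _ => rfl⟩

theorem Dep.coord {φ : Z → B} (hφ : ∀ w, φ w ∈ L) (i : ι) :
    (fun z : ι → Z => φ (z i)) ∈ Dep L ι Z 1 1 := by
  apply AddSubgroup.subset_closure
  refine ⟨fun z => by rw [pow_one]; exact hφ _, {i}, by simp, fun z z' h => ?_⟩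
  simp only
  rw [h i (by simp)]

theorem Dep.coordAdd {φ : Z → B} (hφ : ∀ w, φ w ∈ L) {x : B} (hx : x ∈ L) (i : ι) :
    (fun z : ι → Z => x + φ (z i)) ∈ Dep L ι Z 1 1 := by
  have := AddSubgroup.add_mem _ (Dep.mono (L := L) (Nat.zero_le 1) (Dep.const (ι := ι) (Z := Z) hx))
    (Dep.coord (ι := ι) hφ i)
  exact this

section lists

variable {φ : Z → B} (hφ : ∀ w, φ w ∈ L) {x : ι → B} (hx : ∀ i, x i ∈ L)

include hφ

theorem Dep.prod (l : List ι) :
    (fun z : ι → Z => (l.map fun i => φ (z i)).prod) ∈ Dep L ι Z l.length l.length := by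
  induction l with
  | nil => simpa using Dep.one
  | cons a l ih =>
    have := Dep.mul (Dep.coord hφ a) ih
    simp only [List.map_cons, List.prod_cons, List.length_cons]
    rw [add_comm l.length 1]
    exact this

theorem Dep.bd (a : ι) (l : List ι) :
    (fun z : ι → Z => bd ((a :: l).map fun i => φ (z i))) ∈ Dep L ι Z l.length l.length := by
  induction l generalizing a with
  | nil => simpa using Dep.one
  | cons b l ih =>
    have h1 := Dep.prod hφ (b :: l)
    have h2 := Dep.mul (Dep.coord hφ a) (ih b)
    rw [add_comm 1 l.length] at h2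
    exact AddSubgroup.sub_mem _ h1 h2

include hx

theorem Dep.prodDiff (l : List ι) :
    (fun z : ι → Z => (l.map fun i => x i + φ (z i)).prod - (l.map fun i => φ (z i)).prod) ∈
      Dep L ι Z l.length (l.length - 1) := by
  induction l with
  | nil =>
    simp only [List.map_nil, List.prod_nil, sub_self]
    exact AddSubgroup.zero_mem _
  | cons a l ih =>
    simp only [List.map_cons, List.prod_cons, List.length_cons, Nat.add_sub_cancel]
    have e : (fun z : ι → Z => (x a + φ (z a)) * (l.map fun i => x i + φ (z i)).prod -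
        φ (z a) * (l.map fun i => φ (z i)).prod) =
        (fun z : ι → Z => (x a + φ (z a)) * ((l.map fun i => x i + φ (z i)).prod -
          (l.map fun i => φ (z i)).prod)) + (fun z : ι → Z => x a * (l.map fun i => φ (z i)).prod) := by
      funext z
      simp only [Pi.add_apply]
      noncomm_ring
    rw [e]
    apply AddSubgroup.add_mem
    · cases l with
      | nil =>
        simp only [List.map_nil, List.prod_nil, sub_self, mul_zero]
        exact AddSubgroup.zero_mem _
      | cons b l =>
        have := Dep.mul (Dep.coordAdd hφ (hx a) a) ih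
        simp only [List.length_cons, Nat.add_sub_cancel] at this ⊢
        rw [add_comm 1 (l.length + 1), add_comm 1 l.length] at this
        exact this
    · have := Dep.mul (Dep.const (ι := ι) (Z := Z) (hx a)) (Dep.prod hφ l)
      rw [zero_add, add_comm 1] at this
      exact this

theorem Dep.bdDiff (a : ι) (l : List ι) :
    (fun z : ι → Z => Pool.Agent.Lib.MilnorVan.bd ((a :: l).map fun i => x i + φ (z i)) -
      Pool.Agent.Lib.MilnorVan.bd ((a :: l).map fun i => φ (z i))) ∈
      Dep L ι Z l.length (l.length - 1) := by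
  induction l generalizing a with
  | nil =>
    simp only [List.map_cons, List.map_nil, bd_cons, List.prod_nil, bd_nil, mul_zero, sub_self]
    exact AddSubgroup.zero_mem _
  | cons b l ih =>
    have h1 := Dep.prodDiff hφ hx (b :: l)
    have e : (fun z : ι → Z => Pool.Agent.Lib.MilnorVan.bd ((a :: b :: l).map fun i => x i + φ (z i)) -
        Pool.Agent.Lib.MilnorVan.bd ((a :: b :: l).map fun i => φ (z i))) =
        (fun z : ι → Z => ((b :: l).map fun i => x i + φ (z i)).prod -
          ((b :: l).map fun i => φ (z i)).prod) -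
        (fun z : ι → Z => (x a + φ (z a)) * (Pool.Agent.Lib.MilnorVan.bd ((b :: l).map fun i => x i + φ (z i)) -
          Pool.Agent.Lib.MilnorVan.bd ((b :: l).map fun i => φ (z i)))) -
        (fun z : ι → Z => x a * Pool.Agent.Lib.MilnorVan.bd ((b :: l).map fun i => φ (z i))) := by
      funext z
      simp only [Pi.sub_apply]
      rw [List.map_cons, bd_cons, List.map_cons (l := b :: l), bd_cons]
      noncomm_ring
    rw [e]
    apply AddSubgroup.sub_mem
    · apply AddSubgroup.sub_mem _ h1
      cases l with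
      | nil =>
        simp only [List.map_cons, List.map_nil, bd_cons, List.prod_nil, bd_nil, mul_zero, sub_self]
        exact AddSubgroup.zero_mem _
      | cons c l =>
        have := Dep.mul (Dep.coordAdd hφ (hx a) a) (ih b)
        simp only [List.length_cons, Nat.add_sub_cancel] at this ⊢
        rw [add_comm 1 (l.length + 1), add_comm 1 l.length] at this
        exact this
    · have := Dep.mul (Dep.const (ι := ι) (Z := Z) (hx a)) (Dep.bd hφ b l)
      rw [zero_add, add_comm 1] at this
      exact this

end lists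

/-- sum of an invariant function over a finite group -/
theorem sum_invariant {Λ C : Type*} [AddCommGroup Λ] [Fintype Λ] [AddCommGroup C] (p : ℕ)
    [Fact p.Prime] (κ : Λ) (hκ : κ ≠ 0) (hp : p • κ = 0) (A : AddSubgroup C) (G : Λ → C)
    (hG : ∀ z, G z ∈ A) (hinv : ∀ z, G (z + κ) = G z) : ∃ y ∈ A, ∑ z, G z = p • y := by
  classical
  set H := AddSubgroup.zmultiples κ with hH
  have hcard : Nat.card H = p := by
    rw [hH, Nat.card_zmultiples]
    exact addOrderOf_eq_prime hp hκ
  have hinv2 : ∀ h ∈ H, ∀ z, G (z + h) = G z := by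
    intro h hh
    rw [hH, AddSubgroup.mem_zmultiples_iff] at hh
    obtain ⟨m, rfl⟩ := hh
    induction m using Int.induction_on with
    | zero => intro z; rw [zero_smul, add_zero]
    | succ m ih =>
      intro z
      rw [add_smul, one_smul, ← add_assoc, hinv, ih]
    | pred m ih =>
      intro z
      rw [← ih z, ← hinv (z + (-(m : ℤ) - 1) • κ)]
      congr 1
      rw [sub_smul, one_smul]
      abel
  let e := AddSubgroup.addGroupEquivQuotientProdAddSubgroup (s := H)
  let _ : Fintype (Λ ⧸ H) := Fintype.ofFinite _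
  let _ : Fintype H := Fintype.ofFinite _
  refine ⟨∑ y : Λ ⧸ H, G y.out, AddSubgroup.sum_mem _ fun y _ => hG _, ?_⟩
  have hout : ∀ z : Λ, G z = G ((z : Λ ⧸ H)).out := by
    intro z
    have h1 : ((z : Λ ⧸ H)).out - z ∈ H := by
      have := QuotientAddGroup.out_eq' (z : Λ ⧸ H)
      rw [QuotientAddGroup.eq] at this
      have h2 := H.neg_mem this
      rw [neg_add, neg_neg] at h2
      rwa [sub_eq_add_neg]
    have h2 := hinv2 _ h1 z
    rw [← h2]
    congr 1
    abel
  have hs : ∑ z, G z = ∑ z : Λ, G ((z : Λ ⧸ H)).out := Finset.sum_congr rfl fun z _ => hout z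
  rw [hs, ← Equiv.sum_comp e.symm (fun z : Λ => G ((z : Λ ⧸ H)).out), Fintype.sum_prod_type]
  rw [← Finset.sum_nsmul]
  apply Finset.sum_congr rfl
  intro y _
  have h3 : ∀ h : H, G ((e.symm (y, h) : Λ) : Λ ⧸ H).out = G y.out := by
    intro h
    congr 2
    have := e.apply_symm_apply (y, h)
    have h4 : (e (e.symm (y, h))).1 = y := by rw [this]
    exact h4
  rw [Finset.sum_congr rfl fun h _ => h3 h, Finset.sum_const, Finset.card_univ, ← Nat.card_eq_fintype_card,
    hcard]

end Pool.Agent.Lib.MilnorVan
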