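import Pool.Agent.Lib.MilnorVan.Dep

/-!
# The square of the incidence transform
-/

namespace Pool.Agent.Lib.MilnorVan

open Classical in
/-- extension of a symbol map to `0` by the value `c` -/
noncomputable def lam {F B : Type*} [Field F] (s : Fˣ → B) (c : B) (x : F) : B :=
  if hx : x ≠ 0 then s (Units.mk0 x hx) else c

theorem lam_zero {F B : Type*} [Field F] (s : Fˣ → B) (c : B) : lam s c (0 : F) = c := by
  simp [lam]

theorem lam_of_ne {F B : Type*} [Field F] (s : Fˣ → B) (c : B) {x : F} (hx : x ≠ 0) :
    lam s c x = s (Units.mk0 x hx) := by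
  simp [lam, hx]

theorem lam_unit {F B : Type*} [Field F] (s : Fˣ → B) (c : B) (u : Fˣ) :
    lam s c (u : F) = s u := by
  rw [lam_of_ne s c u.ne_zero]
  congr 1
  ext
  rfl

section

variable {k F B : Type*} [Field k] [Field F] [Algebra k F] [Ring B]

/-- the pairing -/
def dot {W : Submodule k F} {m : ℕ} (f z : Fin m → W) : F := ∑ i, (f i : F) * (z i : F)

theorem dot_comm {W : Submodule k F} {m : ℕ} (f z : Fin m → W) : dot f z = dot z f := by
  simp only [dot, mul_comm]

theorem dot_add {W : Submodule k F} {m : ℕ} (f z z' : Fin m → W) :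
    dot f (z + z') = dot f z + dot f z' := by
  simp only [dot, Pi.add_apply, Submodule.coe_add, mul_add, Finset.sum_add_distrib]

theorem perm_succAbove (n : ℕ) (l : Fin (n + 1)) :
    (List.finRange (n + 1)).Perm (l :: (List.finRange n).map l.succAbove) := by
  rw [List.perm_ext_iff_of_nodup (List.nodup_finRange _)]
  · intro i
    simp only [List.mem_finRange, List.mem_cons, List.mem_map, true_and, true_iff]
    by_cases hi : i = l
    · exact Or.inl hi
    · right
      obtain ⟨j, hj⟩ := Fin.exists_succAbove_eq hi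
      exact ⟨j, hj⟩
  · rw [List.nodup_cons]
    refine ⟨?_, (List.nodup_finRange n).map Fin.succAbove_right_injective⟩
    simp only [List.mem_map, List.mem_finRange, true_and, not_exists]
    intro j
    exact Fin.succAbove_ne l j

end

section radon

variable {k F B C : Type*} [Field k] [Field F] [Algebra k F] [Ring B] [AddCommGroup C]
  {W : Submodule k F} {L : Submodule ℤ B} (hL : IsAlt L) {n : ℕ} (hn : 1 ≤ n)
  (p : ℕ) [hp : Fact p.Prime] (hpW : ∀ w : W, p • w = 0) (θ : B →+ C)
  (hθ : ∀ x ∈ L ^ n, θ (p • x) = 0) (lm : F → B) (hlm : ∀ w : W, lm w ∈ L)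
  (Q : Submodule k F)

/-- the value of the alternating symbol of a point -/
def Ev (θ : B →+ C) (lm : F → B) (z : Fin (n + 1) → W) : C :=
  θ (bd ((List.finRange (n + 1)).map fun i => lm (z i)))

include hp hpW hθ in
theorem theta_card (hW : Nontrivial W) (x : B) (hx : x ∈ L ^ n) : θ (Nat.card W • x) = 0 := by
  obtain ⟨w, hw⟩ := exists_ne (0 : W)
  have h1 : addOrderOf w = p := addOrderOf_eq_prime (hpW w) hw
  have h2 : p ∣ Nat.card W := by
    rw [← h1]
    exact addOrderOf_dvd_natCard w
  obtain ⟨m, hm⟩ := h2
  rw [hm, mul_smul]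
  exact hθ _ (nsmul_mem hx m)

include hlm in
theorem prod_mem_pow (l : List (Fin (n + 1))) (z : Fin (n + 1) → W) :
    (l.map fun i => lm (z i)).prod ∈ L ^ l.length := by
  induction l with
  | nil =>
    rw [List.map_nil, List.prod_nil, List.length_nil, pow_zero]
    exact Submodule.one_le.mp le_rfl
  | cons a l ih =>
    rw [List.map_cons, List.prod_cons, List.length_cons, pow_succ']
    exact Submodule.mul_mem_mul (hlm _) ih

include hlm in
theorem bd_mem_pow (a : Fin (n + 1)) (l : List (Fin (n + 1))) (z : Fin (n + 1) → W) :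
    bd ((a :: l).map fun i => lm (z i)) ∈ L ^ l.length := by
  induction l generalizing a with
  | nil =>
    simp only [List.map_cons, List.map_nil, bd_cons, List.prod_nil, bd_nil, mul_zero, sub_zero,
      List.length_nil, pow_zero]
    exact Submodule.one_le.mp le_rfl
  | cons b l ih =>
    rw [List.map_cons, bd_cons]
    apply Submodule.sub_mem
    · exact prod_mem_pow lm hlm (b :: l) z
    · rw [List.length_cons, pow_succ']
      exact Submodule.mul_mem_mul (hlm _) (ih b)

include hlm in
theorem bd_mem (z : Fin (n + 1) → W) :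
    bd ((List.finRange (n + 1)).map fun i => lm (z i)) ∈ L ^ n := by
  have := bd_mem_pow lm hlm 0 ((List.finRange n).map Fin.succ) z
  rw [List.length_map, List.length_finRange, ← List.finRange_succ] at this
  exact this

omit hp in
include hlm hθ in
theorem p_smul_Ev (z : Fin (n + 1) → W) : p • Ev θ lm z = 0 := by
  rw [Ev, ← map_nsmul]
  exact hθ _ (bd_mem lm hlm z)

include hn hp hpW hθ in
theorem sum_dep [Fintype (Fin (n + 1) → W)] (f : Fin (n + 1) → W) (hf : ∀ i, f i ≠ 0)
    (P : (Fin (n + 1) → W) → Prop) [DecidablePred P]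
    (hP : ∀ z κ : Fin (n + 1) → W, dot f κ = 0 → (P (z + κ) ↔ P z))
    (G : (Fin (n + 1) → W) → B) (hG : G ∈ Dep L (Fin (n + 1)) W n (n - 1)) :
    ∑ z with P z, θ (G z) = 0 := by
  classical
  refine AddSubgroup.closure_induction (p := fun G _ => ∑ z with P z, θ (G z) = 0) ?_ ?_ ?_ ?_ hG
  · rintro G ⟨h1, T, h2, h3⟩
    have hcard : 1 < (Finset.univ \ T : Finset (Fin (n + 1))).card := by
      rw [Finset.card_sdiff_of_subset (Finset.subset_univ _), Finset.card_univ, Fintype.card_fin]
      omega
    obtain ⟨a, ha, b, hb, hab⟩ := Finset.one_lt_card.mp hcard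
    simp only [Finset.mem_sdiff, Finset.mem_univ, true_and] at ha hb
    set κ : Fin (n + 1) → W := Pi.single a (f b) - Pi.single b (f a) with hκ
    have hκa : κ a = f b := by
      simp [hκ, hab]
    have hκb : κ b = - f a := by
      simp [hκ, hab.symm]
    have hκi : ∀ i, i ≠ a → i ≠ b → κ i = 0 := by
      intro i hia hib
      simp [hκ, hia, hib]
    have hdot : dot f κ = 0 := by
      unfold dot
      rw [← Finset.add_sum_erase _ _ (Finset.mem_univ a),
        ← Finset.add_sum_erase _ _ (Finset.mem_erase.mpr ⟨hab.symm, Finset.mem_univ b⟩),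
        Finset.sum_eq_zero, hκa, hκb]
      · push_cast
        ring
      · intro i hi
        rw [Finset.mem_erase, Finset.mem_erase] at hi
        rw [hκi i hi.2.1 hi.1]
        simp
    have hκ0 : κ ≠ 0 := by
      intro h0
      apply hf b
      rw [← hκa, h0]
      rfl
    have hpκ : p • κ = 0 := by
      funext i
      exact hpW _
    obtain ⟨y, hy, hsum⟩ := sum_invariant (C := B) p κ hκ0 hpκ (L ^ n).toAddSubgroup
      (fun z => if P z then G z else 0) (by
        intro z
        split
        · exact h1 z
        · exact AddSubgroup.zero_mem _) (by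
        intro z
        rw [h3 (z + κ) z]
        · simp only [hP z κ hdot]
        · intro i hi
          have hia : i ≠ a := fun h => ha (h ▸ hi)
          have hib : i ≠ b := fun h => hb (h ▸ hi)
          simp [hκi i hia hib])
    rw [← map_sum, Finset.sum_filter, hsum]
    exact hθ _ hy
  · simp
  · intro G1 G2 _ _ i1 i2
    simp only [Pi.add_apply, map_add, Finset.sum_add_distrib]
    rw [i1, i2, add_zero]
  · intro G1 _ i1
    simp only [Pi.neg_apply, map_neg, Finset.sum_neg_distrib]
    rw [i1, neg_zero]

end radon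

end Pool.Agent.Lib.MilnorVan
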